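import Pool.Agent.Y203.QC.Sym

/-!
# The dynamics normalises the digits (helper165, job QC-SNORM of helper203)
-/

set_option autoImplicit false

open Set Filter Topology

namespace Pool.Agent.Y203.QC

open Pool.Agent.Aub (mm lam Stk dt stp Sc S1 S2 Qx gT gt cT ct hC hX Dg Ty stg rho mu posn peel cE cF
  DD rb subTy subP subC sub broken Clamp Ix Zs stk reg mkz Wt f0 f1 f4 f6 g0 g1 M0 M4 M6 N1 tyj pj
  Cell sT Dle vb tyn)

namespace SN

theorem mm_eq : mm = 4096 := rfl
theorem bb_eq : bb = 4095 := rfl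

theorem cl_zero (l : List Cell) : cl l 0 = hd l := rfl

theorem cl_succ (l : List Cell) (i : ℕ) : cl l (i + 1) = cl l.tail i := by
  cases l <;> simp [cl]

theorem hd_stE (r : Bool) (l : List Cell) : hd (stE r l) = newc r (hd l) (hd l.tail) := by
  cases l <;> rfl

theorem tail_stE (r : Bool) (l : List Cell) : (stE r l).tail = upd (hd l) l.tail := by
  cases l with
  | nil =>
    simp only [stE, upd, setD, List.tail_cons, List.tail_nil]
    split_ifs <;> rfl
  | cons a tl => rfl

theorem hd_stF (l : List Cell) : hd (stF l) = hd l := by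
  cases l <;> rfl

theorem tail_stF (l : List Cell) : (stF l).tail = st (sT Ty.F (hd l).b) false l.tail := by
  cases l with
  | nil => rfl
  | cons a tl =>
    obtain ⟨b, c, D⟩ := a
    cases b <;> rfl

theorem tail_upd (a : Cell) (tl : List Cell) : (upd a tl).tail = tl.tail := by
  unfold upd
  cases tl <;> simp only [setD] <;> split_ifs <;> rfl

/-- the digits are normal -/
def Nm (a : Cell) : Prop := ∀ k, 0 < a.D k ∧ a.D k < mm

/-- all digits are normal -/
def AN (l : List Cell) : Prop := ∀ i, Nm (cl l i)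

theorem Nm_zc : Nm zc := fun _ => ⟨Nat.one_pos, by
  change 1 < mm
  rw [mm_eq]
  norm_num⟩

theorem AN_iff (l : List Cell) : AN l ↔ Nm (hd l) ∧ AN l.tail := by
  constructor
  · intro h
    exact ⟨h 0, fun i => by rw [← cl_succ]; exact h (i + 1)⟩
  · rintro ⟨h1, h2⟩ i
    cases i with
    | zero => exact h1
    | succ i => rw [cl_succ]; exact h2 i

theorem Ex_zero_iff (l : List Cell) : Ex 0 l ↔
    (∀ k : Fin 3, k ≠ 0 → 0 < (hd l).D k ∧ (hd l).D k < mm) ∧ AN l.tail := by
  constructor
  · intro h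
    refine ⟨fun k hk => ?_, fun i k => ?_⟩
    · rcases h 0 k with h1 | h1
      · exact absurd h1.1 hk
      · exact h1
    · rw [← cl_succ]
      rcases h (i + 1) k with h1 | h1
      · exact absurd h1.2 (by omega)
      · exact h1
  · rintro ⟨h1, h2⟩ i k
    cases i with
    | zero =>
      by_cases hk : k = 0
      · exact Or.inl ⟨hk, rfl⟩
      · exact Or.inr (h1 k hk)
    | succ i =>
      right
      rw [cl_succ]
      exact h2 i k

theorem Ex_succ_iff (j : ℕ) (l : List Cell) : Ex (j + 1) l ↔ Nm (hd l) ∧ Ex j l.tail := by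
  constructor
  · intro h
    refine ⟨fun k => ?_, fun i k => ?_⟩
    · rcases h 0 k with h1 | h1
      · exact absurd h1.2 (by omega)
      · exact h1
    · rw [← cl_succ]
      rcases h (i + 1) k with h1 | h1
      · exact Or.inl ⟨h1.1, by omega⟩
      · exact Or.inr h1
  · rintro ⟨h1, h2⟩ i k
    cases i with
    | zero => exact Or.inr (h1 k)
    | succ i =>
      rw [cl_succ]
      rcases h2 i k with h3 | h3
      · exact Or.inl ⟨h3.1, by omega⟩
      · exact Or.inr h3

theorem AN_Ex (l : List Cell) (h : AN l) : Ex 0 l := fun i k => Or.inr (h i k)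

theorem low_id {x y : ℕ} (h0 : 0 < y) (h1 : y < mm) : low x y = (x, y) := by
  unfold low
  rw [if_neg (by omega), if_neg (by omega)]

theorem carry_id (D : Fin 3 → ℕ) (h : ∀ k : Fin 3, k ≠ 0 → 0 < D k ∧ D k < mm) :
    carry D (D 2) = D := by
  have h1 := h 1 (by decide)
  have h2 := h 2 (by decide)
  unfold carry
  rw [low_id h2.1 h2.2]
  simp only
  rw [low_id h1.1 h1.2]
  funext k
  fin_cases k <;> rfl

theorem newc_id (a e : Cell) (ht : tt a e = 0) (hu : uu a e = 0)
    (h : ∀ k : Fin 3, k ≠ 0 → 0 < a.D k ∧ a.D k < mm) : (newc false a e).D = a.D := by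
  unfold newc
  simp only [Bool.false_eq_true, if_false]
  rw [ht, hu]
  exact carry_id a.D h

theorem upd_id (a : Cell) (tl : List Cell) (ht : tt a (hd tl) = 0) (hu : uu a (hd tl) = 0) :
    upd a tl = tl := by
  unfold upd
  rw [ht, hu]
  simp

theorem tt_Nm (a e : Cell) (he : Nm e) : tt a e = 0 := by
  unfold tt
  rw [if_neg]
  rintro ⟨_, h, _⟩
  have := (he 0).2
  omega

theorem uu_Nm (a e : Cell) (he : Nm e) : uu a e = 0 := by
  unfold uu
  rw [if_neg]
  rintro ⟨_, h, _⟩
  have := (he 0).1
  omega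

theorem AN_stE (l : List Cell) (h : AN l) : AN (stE false l) := by
  rw [AN_iff] at h ⊢
  rw [hd_stE, tail_stE]
  have h1 := h.2 0
  rw [cl_zero] at h1
  rw [upd_id _ _ (tt_Nm _ _ h1) (uu_Nm _ _ h1)]
  refine ⟨?_, h.2⟩
  intro k
  rw [newc_id _ _ (tt_Nm _ _ h1) (uu_Nm _ _ h1) (fun k _ => h.1 k)]
  exact h.1 k

theorem AN_st : ∀ (l : List Cell) (ty : Ty), AN l → AN (st ty false l) := by
  intro l
  induction l with
  | nil =>
    intro ty h
    cases ty with
    | E => exact AN_stE _ h
    | F =>
      change AN (stF [])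
      rw [AN_iff, hd_stF, tail_stF]
      exact ⟨h 0, AN_stE _ h⟩
  | cons a tl ih =>
    intro ty h
    cases ty with
    | E => exact AN_stE _ h
    | F =>
      change AN (stF (a :: tl))
      rw [AN_iff, hd_stF, tail_stF]
      exact ⟨h 0, ih _ ((AN_iff _).mp h).2⟩

theorem Ex0_stE (l : List Cell) (h : Ex 0 l) : Ex 0 (stE false l) := by
  rw [Ex_zero_iff] at h ⊢
  rw [hd_stE, tail_stE]
  have h1 := h.2 0
  rw [cl_zero] at h1
  rw [upd_id _ _ (tt_Nm _ _ h1) (uu_Nm _ _ h1)]
  refine ⟨?_, h.2⟩
  intro k hk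
  rw [newc_id _ _ (tt_Nm _ _ h1) (uu_Nm _ _ h1) h.1]
  exact h.1 k hk

theorem Ex0_st (l : List Cell) (ty : Ty) (h : Ex 0 l) : Ex 0 (st ty false l) := by
  cases ty with
  | E => exact Ex0_stE l h
  | F =>
    change Ex 0 (stF l)
    rw [Ex_zero_iff] at h ⊢
    rw [hd_stF, tail_stF]
    exact ⟨h.1, AN_st _ _ h.2⟩

theorem hd_upd (a : Cell) (tl : List Cell) : hd (upd a tl) =
    if tt a (hd tl) = 1 then ⟨(hd tl).b, (hd tl).c, Function.update (hd tl).D 0 1⟩
    else if uu a (hd tl) = 1 then ⟨(hd tl).b, (hd tl).c, Function.update (hd tl).D 0 bb⟩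
    else hd tl := by
  cases tl with
  | nil =>
    have h1 : tt a (hd []) = 0 := tt_Nm _ _ Nm_zc
    have h2 : uu a (hd []) = 0 := uu_Nm _ _ Nm_zc
    rw [upd_id a [] h1 h2, h1, h2]
    simp
  | cons e tl =>
    have e0 : hd (e :: tl) = e := rfl
    unfold upd
    rw [e0]
    by_cases h1 : tt a e = 1
    · rw [if_pos h1, if_pos h1]; rfl
    · rw [if_neg h1, if_neg h1]
      by_cases h2 : uu a e = 1
      · rw [if_pos h2, if_pos h2]; rfl
      · rw [if_neg h2, if_neg h2]; rfl

/-- the head takes the carry or borrow -/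
theorem Ex1_take (l : List Cell) (h1 : Nm (hd l)) (h2 : Ex 0 l.tail) (hb : (hd l).b = false)
    (hc : (hd l.tail).D 0 = mm ∨ (hd l.tail).D 0 = 0) : Ex 0 (stE false l) := by
  rw [Ex_zero_iff] at h2 ⊢
  rw [hd_stE, tail_stE]
  have hm := mm_eq
  have hbb := bb_eq
  have a0 := h1 0
  have a1 := h1 1
  have a2 := h1 2
  rcases hc with hc | hc
  · have ht : tt (hd l) (hd l.tail) = 1 := by
      unfold tt
      rw [if_pos ⟨hb, hc, a2.2⟩]
    have hu : uu (hd l) (hd l.tail) = 0 := by
      unfold uu
      rw [if_neg]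
      rintro ⟨_, h, _⟩
      omega
    constructor
    · have e : (newc false (hd l) (hd l.tail)).D = carry (hd l).D ((hd l).D 2 + 1) := by
        unfold newc
        simp only [Bool.false_eq_true, if_false]
        rw [ht, hu]
        rfl
      rw [e]
      intro k hk
      unfold carry low
      fin_cases k
      · exact absurd rfl hk
      · simp only [Fin.mk_one, Matrix.cons_val_one, Matrix.cons_val_zero]
        split_ifs <;> simp only <;> omega
      · simp only [Fin.reduceFinMk, Matrix.cons_val]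
        split_ifs <;> simp only <;> omega
    · rw [AN_iff, hd_upd, tail_upd, ht, if_pos rfl]
      refine ⟨?_, h2.2⟩
      intro k
      simp only
      by_cases hk : k = 0
      · subst hk
        simp only [Function.update_self]
        omega
      · rw [Function.update_of_ne hk]
        exact h2.1 k hk
  · have hu : uu (hd l) (hd l.tail) = 1 := by
      unfold uu
      rw [if_pos ⟨hb, hc, a2.1⟩]
    have ht : tt (hd l) (hd l.tail) = 0 := by
      unfold tt
      rw [if_neg]
      rintro ⟨_, h, _⟩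
      omega
    constructor
    · have e : (newc false (hd l) (hd l.tail)).D = carry (hd l).D ((hd l).D 2 - 1) := by
        unfold newc
        simp only [Bool.false_eq_true, if_false]
        rw [ht, hu]
        rfl
      rw [e]
      intro k hk
      unfold carry low
      fin_cases k
      · exact absurd rfl hk
      · simp only [Fin.mk_one, Matrix.cons_val_one, Matrix.cons_val_zero]
        split_ifs <;> simp only <;> omega
      · simp only [Fin.reduceFinMk, Matrix.cons_val]
        split_ifs <;> simp only <;> omega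
    · rw [AN_iff, hd_upd, tail_upd, ht, hu, if_neg (by omega), if_pos rfl]
      refine ⟨?_, h2.2⟩
      intro k
      simp only
      by_cases hk : k = 0
      · subst hk
        simp only [Function.update_self]
        omega
      · rw [Function.update_of_ne hk]
        exact h2.1 k hk

/-- the head does not take anything -/
theorem stE_keep (l : List Cell) (h1 : Nm (hd l))
    (hc : (hd l).b = true ∨ ((hd l.tail).D 0 ≠ mm ∧ (hd l.tail).D 0 ≠ 0)) :
    Nm (hd (stE false l)) ∧ (stE false l).tail = l.tail := by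
  have ht : tt (hd l) (hd l.tail) = 0 := by
    unfold tt
    rw [if_neg]
    rintro ⟨h, h', _⟩
    rcases hc with hc | hc
    · rw [h] at hc; cases hc
    · exact hc.1 h'
  have hu : uu (hd l) (hd l.tail) = 0 := by
    unfold uu
    rw [if_neg]
    rintro ⟨h, h', _⟩
    rcases hc with hc | hc
    · rw [h] at hc; cases hc
    · exact hc.2 h'
  rw [hd_stE, tail_stE, upd_id _ _ ht hu]
  refine ⟨?_, rfl⟩
  intro k
  rw [newc_id _ _ ht hu (fun k _ => h1 k)]
  exact h1 k

theorem Ex_stE (l : List Cell) (j : ℕ) (h : Ex j l) : ∃ j', Ex j' (stE false l) := by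
  cases j with
  | zero => exact ⟨0, Ex0_stE l h⟩
  | succ j =>
    rw [Ex_succ_iff] at h
    by_cases hc : (hd l).b = true ∨ ((hd l.tail).D 0 ≠ mm ∧ (hd l.tail).D 0 ≠ 0)
    · obtain ⟨h1, h2⟩ := stE_keep l h.1 hc
      exact ⟨j + 1, (Ex_succ_iff _ _).mpr ⟨h1, by rw [h2]; exact h.2⟩⟩
    · push Not at hc
      have hb : (hd l).b = false := by simpa using hc.1
      have hc2 : (hd l.tail).D 0 = mm ∨ (hd l.tail).D 0 = 0 := by
        by_contra hne
        push Not at hne
        exact hne.2 (hc.2 hne.1)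
      cases j with
      | zero => exact ⟨0, Ex1_take l h.1 h.2 hb hc2⟩
      | succ j =>
        exfalso
        have h3 := ((Ex_succ_iff _ _).mp h.2).1 0
        omega

theorem Ex_st : ∀ (l : List Cell) (ty : Ty) (j : ℕ), Ex j l → ∃ j', Ex j' (st ty false l) := by
  intro l
  induction l with
  | nil =>
    intro ty j h
    exact ⟨0, Ex0_st _ _ (AN_Ex _ fun i => by
      have : cl [] i = zc := by simp [cl, hd]
      rw [this]; exact Nm_zc)⟩
  | cons a tl ih =>
    intro ty j h
    cases ty with
    | E => exact Ex_stE _ j h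
    | F =>
      cases j with
      | zero => exact ⟨0, Ex0_st _ _ h⟩
      | succ j =>
        rw [Ex_succ_iff] at h
        obtain ⟨j', hj'⟩ := ih (sT Ty.F a.b) j h.2
        refine ⟨j' + 1, (Ex_succ_iff _ _).mpr ?_⟩
        change Nm (hd (stF (a :: tl))) ∧ Ex j' (stF (a :: tl)).tail
        rw [hd_stF, tail_stF]
        exact ⟨h.1, hj'⟩

/-- all digits are at most `mm` -/
def DL (l : List Cell) : Prop := ∀ i k, (cl l i).D k ≤ mm

theorem DL_of_Dle : ∀ (l : List Cell), Dle l → DL l := by
  intro l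
  induction l with
  | nil =>
    intro h i k
    have : cl [] i = zc := by simp [cl, hd]
    rw [this]
    exact (Nm_zc k).2.le
  | cons a tl ih =>
    intro h i k
    cases i with
    | zero => exact h a (by simp) k
    | succ i =>
      rw [cl_succ]
      exact ih (fun b hb => h b (by simp [hb])) i k

theorem DL_iff (l : List Cell) : DL l ↔ (∀ k, (hd l).D k ≤ mm) ∧ DL l.tail := by
  constructor
  · intro h
    exact ⟨h 0, fun i => by rw [← cl_succ]; exact h (i + 1)⟩
  · rintro ⟨h1, h2⟩ i
    cases i with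
    | zero => exact h1
    | succ i => rw [cl_succ]; exact h2 i

theorem DL_stE (l : List Cell) (h : DL l) : DL (stE false l) := by
  have hm := mm_eq
  have hbb := bb_eq
  rw [DL_iff] at h ⊢
  rw [hd_stE, tail_stE]
  have h2 := (DL_iff _).mp h.2
  constructor
  · have e : (newc false (hd l) (hd l.tail)).D = carry (hd l).D
        ((hd l).D 2 + tt (hd l) (hd l.tail) - uu (hd l) (hd l.tail)) := by
      unfold newc
      simp only [Bool.false_eq_true, if_false]
    rw [e]
    have h3 : (hd l).D 2 + tt (hd l) (hd l.tail) - uu (hd l) (hd l.tail) ≤ mm := by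
      have h4 := h.1 2
      unfold tt
      split_ifs with hs <;> omega
    generalize (hd l).D 2 + tt (hd l) (hd l.tail) - uu (hd l) (hd l.tail) = y at h3
    have a0 := h.1 0
    have a1 := h.1 1
    intro k
    unfold carry low
    fin_cases k
    · simp only [Fin.zero_eta, Matrix.cons_val_zero]
      split_ifs <;> simp only <;> omega
    · simp only [Fin.mk_one, Matrix.cons_val_one, Matrix.cons_val_zero]
      split_ifs <;> simp only <;> omega
    · simp only [Fin.reduceFinMk, Matrix.cons_val]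
      split_ifs <;> simp only <;> omega
  · rw [DL_iff, hd_upd, tail_upd]
    refine ⟨?_, h2.2⟩
    intro k
    split_ifs
    · simp only
      by_cases hk : k = 0
      · subst hk
        simp only [Function.update_self]
        omega
      · rw [Function.update_of_ne hk]
        exact h2.1 k
    · simp only
      by_cases hk : k = 0
      · subst hk
        simp only [Function.update_self]
        omega
      · rw [Function.update_of_ne hk]
        exact h2.1 k
    · exact h2.1 k

theorem DL_st : ∀ (l : List Cell) (ty : Ty), DL l → DL (st ty false l) := by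
  intro l
  induction l with
  | nil =>
    intro ty h
    cases ty with
    | E => exact DL_stE _ h
    | F =>
      change DL (stF [])
      rw [DL_iff, hd_stF, tail_stF]
      exact ⟨h 0, DL_stE _ h⟩
  | cons a tl ih =>
    intro ty h
    cases ty with
    | E => exact DL_stE _ h
    | F =>
      change DL (stF (a :: tl))
      rw [DL_iff, hd_stF, tail_stF]
      exact ⟨h 0, ih _ ((DL_iff _).mp h).2⟩

/-- one `E` tick, head bit `0` -/
theorem tickE0 (l : List Cell) (h : Ex 1 l) (hD : DL l) (hb : (hd l).b = false) :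
    Ex 0 (stE false l) := by
  rw [Ex_succ_iff] at h
  by_cases hc : (hd l.tail).D 0 = mm ∨ (hd l.tail).D 0 = 0
  · exact Ex1_take l h.1 h.2 hb hc
  · push Not at hc
    apply Ex0_stE
    rw [Ex_zero_iff]
    refine ⟨fun k _ => h.1 k, ?_⟩
    have h2 := (Ex_zero_iff _).mp h.2
    rw [AN_iff]
    refine ⟨fun k => ?_, h2.2⟩
    by_cases hk : k = 0
    · subst hk
      have := ((DL_iff _).mp ((DL_iff _).mp hD).2).1 0
      omega
    · exact h2.1 k hk

theorem tickE1 (l : List Cell) (h : Ex 1 l) (hb : (hd l).b = true) :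
    Ex 1 (stE false l) ∧ (hd (stE false l)).b = false := by
  rw [Ex_succ_iff] at h
  obtain ⟨h1, h2⟩ := stE_keep l h.1 (Or.inl hb)
  refine ⟨(Ex_succ_iff _ _).mpr ⟨h1, by rw [h2]; exact h.2⟩, ?_⟩
  rw [hd_stE]
  simp [newc, hb]

theorem tickF (l : List Cell) (h : Ex 1 l) :
    Ex 1 (stF l) ∧ (hd (stF l)).b = (hd l).b := by
  rw [Ex_succ_iff] at h
  rw [Ex_succ_iff, hd_stF, tail_stF]
  exact ⟨⟨h.1, Ex0_st _ _ h.2⟩, rfl⟩

/-- the run without resets -/
abbrev RR (n : ℕ) (ty : Ty) (l : List Cell) : List Cell := run n (fun _ => false) ty l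

theorem four (ty : Ty) (l : List Cell) (h : Ex 1 l) (hD : DL l) : ∃ n ≤ 4, Ex 0 (RR n ty l) := by
  have hE : ∀ l : List Cell, Ex 1 l → DL l → ∃ n ≤ 3, Ex 0 (RR n Ty.E l) := by
    intro l h hD
    cases hb : (hd l).b with
    | false => exact ⟨1, by omega, tickE0 l h hD hb⟩
    | true =>
      refine ⟨3, by omega, ?_⟩
      obtain ⟨h1, h2⟩ := tickE1 l h hb
      obtain ⟨h3, h4⟩ := tickF _ h1
      exact tickE0 (stF (stE false l)) h3 (DL_st _ Ty.F (DL_stE _ hD)) (by rw [h4, h2])
  cases ty with
  | E =>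
    obtain ⟨n, hn, h1⟩ := hE l h hD
    exact ⟨n, by omega, h1⟩
  | F =>
    obtain ⟨n, hn, h1⟩ := hE (stF l) (tickF l h).1 (DL_st _ Ty.F hD)
    exact ⟨n + 1, by omega, h1⟩

theorem persist (n : ℕ) : ∀ (ty : Ty) (l : List Cell), Ex 0 l → Ex 0 (RR n ty l) := by
  induction n with
  | zero => intro ty l h; exact h
  | succ n ih => intro ty l h; exact ih _ _ (Ex0_st l ty h)

theorem persist2 (m n : ℕ) : ∀ (ty : Ty) (l : List Cell), Ex 0 (RR n ty l) →
    Ex 0 (RR (n + m) ty l) := by
  induction n with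
  | zero => intro ty l h; rw [Nat.zero_add]; exact persist m ty l h
  | succ n ih =>
    intro ty l h
    rw [show n + 1 + m = (n + m) + 1 by omega]
    exact ih _ _ h

/-- reduction to the tail -/
theorem tailred (m : ℕ) : ∀ (ty : Ty) (l : List Cell), Nm (hd l) → (∃ j, Ex j l.tail) → DL l →
    Ex 0 (RR m (sT ty (hd l).b) l.tail) → ∃ n ≤ 2 * m + 5, Ex 0 (RR n ty l) := by
  induction m with
  | zero =>
    intro ty l h1 _ hD h2
    obtain ⟨n, hn, h3⟩ := four ty l ((Ex_succ_iff _ _).mpr ⟨h1, h2⟩) hD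
    exact ⟨n, by omega, h3⟩
  | succ m ih =>
    have hF : ∀ (l : List Cell), Nm (hd l) → (∃ j, Ex j l.tail) → DL l →
        Ex 0 (RR (m + 1) (sT Ty.F (hd l).b) l.tail) → ∃ n ≤ 2 * m + 6, Ex 0 (RR n Ty.F l) := by
      intro l h1 hj hD h2
      obtain ⟨j, hj⟩ := hj
      have h3 := ih Ty.E (stF l) (by rw [hd_stF]; exact h1)
        (by rw [tail_stF]; exact Ex_st _ _ j hj) (DL_st _ Ty.F hD) (by
          rw [tail_stF, hd_stF]
          have e : sT Ty.E (hd l).b = (sT Ty.F (hd l).b).other := by
            cases (hd l).b <;> rfl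
          rw [e]
          exact h2)
      obtain ⟨n, hn, h4⟩ := h3
      exact ⟨n + 1, by omega, h4⟩
    intro ty l h1 hj hD h2
    cases ty with
    | F =>
      obtain ⟨n, hn, h3⟩ := hF l h1 hj hD h2
      exact ⟨n, by omega, h3⟩
    | E =>
      by_cases h0 : Ex 0 l.tail
      · obtain ⟨n, hn, h3⟩ := four Ty.E l ((Ex_succ_iff _ _).mpr ⟨h1, h0⟩) hD
        exact ⟨n, by omega, h3⟩
      · obtain ⟨j, hj⟩ := hj
        cases j with
        | zero => exact absurd hj h0
        | succ j =>
          have h5 := ((Ex_succ_iff _ _).mp hj).1 0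
          obtain ⟨h6, h7⟩ := stE_keep l h1 (Or.inr ⟨by omega, by omega⟩)
          have h8 : (hd (stE false l)).b = !(hd l).b := by
            rw [hd_stE]
            rfl
          obtain ⟨n, hn, h9⟩ := hF (stE false l) h6 (by rw [h7]; exact ⟨_, hj⟩) (DL_stE _ hD) (by
            rw [h7, h8]
            have e : sT Ty.F (!(hd l).b) = sT Ty.E (hd l).b := by
              cases (hd l).b <;> rfl
            rw [e]
            exact h2)
          exact ⟨n + 1, by omega, h9⟩

theorem norm_DL (N : ℕ) : ∃ T : ℕ, ∀ n ≥ T, ∀ (ty : Ty) (l : List Cell), DL l → Ex N l →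
    Ex 0 (RR n ty l) := by
  induction N with
  | zero => exact ⟨0, fun n _ ty l _ h => persist n ty l h⟩
  | succ N ih =>
    obtain ⟨T, hT⟩ := ih
    refine ⟨2 * T + 5, fun n hn ty l hD h => ?_⟩
    rw [Ex_succ_iff] at h
    have h2 := hT T le_rfl (sT ty (hd l).b) l.tail ((DL_iff _).mp hD).2 h.2
    obtain ⟨k, hk, h3⟩ := tailred T ty l h.1 ⟨N, h.2⟩ hD h2
    have h4 := persist2 (n - k) k ty l h3
    rw [show k + (n - k) = n by omega] at h4
    exact h4

theorem Cb_iff (l : List Cell) : Cb l ↔ ((hd l).b = false → (hd l).c = false) ∧ Cb l.tail := by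
  constructor
  · intro h
    exact ⟨h 0, fun i => by rw [← cl_succ]; exact h (i + 1)⟩
  · rintro ⟨h1, h2⟩ i
    cases i with
    | zero => exact h1
    | succ i => rw [cl_succ]; exact h2 i

theorem Cb_stE (r : Bool) (l : List Cell) (h : Cb l) : Cb (stE r l) := by
  rw [Cb_iff] at h ⊢
  rw [hd_stE, tail_stE]
  constructor
  · intro hb
    unfold newc at hb ⊢
    simp only at hb ⊢
    rw [hb]
    rfl
  · have h2 := (Cb_iff _).mp h.2
    rw [Cb_iff, hd_upd, tail_upd]
    refine ⟨?_, h2.2⟩
    split_ifs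
    · exact h2.1
    · exact h2.1
    · exact h2.1

theorem Cb_st : ∀ (l : List Cell) (ty : Ty) (r : Bool), Cb l → Cb (st ty r l) := by
  intro l
  induction l with
  | nil =>
    intro ty r h
    cases ty with
    | E => exact Cb_stE _ _ h
    | F =>
      change Cb (stF [])
      rw [Cb_iff, hd_stF, tail_stF]
      exact ⟨h 0, Cb_stE _ _ h⟩
  | cons a tl ih =>
    intro ty r h
    cases ty with
    | E => exact Cb_stE _ _ h
    | F =>
      change Cb (stF (a :: tl))
      rw [Cb_iff, hd_stF, tail_stF]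
      exact ⟨h 0, ih _ _ ((Cb_iff _).mp h).2⟩

end SN

theorem ex_norm (N : ℕ) : ∃ T : ℕ, ∀ n ≥ T, ∀ (ty : Ty) (l : List Cell), Dle l → Ex N l →
    Ex 0 (run n (fun _ => false) ty l) := by
  obtain ⟨T, hT⟩ := SN.norm_DL N
  exact ⟨T, fun n hn ty l hD h => hT n hn ty l (SN.DL_of_Dle l hD) h⟩

theorem Cb_run (n : ℕ) (r : ℕ → Bool) (ty : Ty) (l : List Cell) (h : Cb l) :
    Cb (run n r ty l) := by
  induction n generalizing r ty l with
  | zero => exact h
  | succ n ih => exact ih _ _ _ (SN.Cb_st l ty (r 0) h)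

end Pool.Agent.Y203.QC
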